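import Pool.Agent.Lib.T4.Main

/-! An excess of sections forces curves of degree zero through very general points. -/

open Module Filter

namespace Pool.Agent.Lib.T4

open Pool.Agent.Lib.GD Pool.Agent.Lib.UR Pool.Agent.Lib.A35 Pool.Agent.Lib.NAK

theorem fin (L : Type) [Field L] [Algebra ℂ L] (n N q r : ℕ) (hn : 0 < n) (hr : 0 < r)
    (y : Fin (N + 1) → L) (x : Fin n → L) (d : Fin n → Derivation ℂ L L) (hy : SmoothModel y)
    (h0 : y 0 = 1) (hx : IsTranscendenceBasis ℂ x)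
    (hd : ∀ a b, d a (x b) = if a = b then 1 else 0) (τ : Type) [Fintype τ] (p : τ → L)
    (hp : Free y p) (hB : Eff q y p (n + 1) (gaussT d y) 1 r) (hK : NefC q y p) (η : ℝ)
    (hη : 0 < η) (hE : ∀ᶠ m : ℕ in atTop, ∃ᶠ k : ℕ in atTop,
      (1 + η) * finrank ℂ (Sec q y p (m * k) k) < (k : ℝ) ^ n * finrank ℂ (Sec q y p m 1))
    (g : ℕ → MvPolynomial (Fin (N + 1)) ℂ) (hg : ∀ m, MvPolynomial.aeval y (g m) ≠ 0) :
    ∃ C : NAK.Crv y p, Gen ℂ C.Y ∧ (∀ m, MvPolynomial.aeval C.Y (g m) ≠ 0) ∧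
      ht ℂ C.P = q * ht ℂ C.Y := by
  obtain ⟨e, rfl⟩ := Nat.exists_eq_succ_of_ne_zero hn.ne'
  obtain ⟨S, hS, -⟩ := hp 0 ⊥ Ideal.isPrime_bot
  let X : Mod L (e + 1) :=
    { toMod₀ := ⟨N, y, x, d, hy, h0, hx, hd⟩, τ := τ, p := p, q := q, c := 1, r := r, rpos := hr
      free := hp, eff := hB
      nef := nef_of_cnef (Function.ne_iff.2 ⟨0, (hy 0).1⟩) (Function.ne_iff.2 ⟨S, hS⟩)
        (cnef_of hK) }
  by_contra h
  obtain ⟨m, h1, h2⟩ := ((main X (nd_of X hg hK fun C h1 h2 h3 => h ⟨C, h1, h2, h3.symm⟩)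
    hη).and_eventually hE).exists
  obtain ⟨k, h3, h4⟩ := (h2.and_eventually h1).exists
  rw [show Sec q y p (m * k) k = Sc X (m * k) k from X.sec_eq _ _,
    show Sec q y p m 1 = Sc X m 1 from X.sec_eq _ _] at h3
  exact h3.not_ge h4

end Pool.Agent.Lib.T4
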