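import Pool.Agent.Lib.T4.Lead
import Pool.Agent.Lib.A35.Kit
import Pool.Agent.Lib.GD.BCa

/-! Generation of jets bounds the number of sections by the volume. -/

open Module Submodule Set Filter IsLocalRing

noncomputable section

namespace Pool.Agent.Lib.T4

open Pool.Agent.Lib.MP_7fcda1_ag Pool.Agent.Lib.UR Pool.Agent.Lib.A35 G

variable {L κ : Type} [Field L] [Algebra ℂ L] [Field κ] [Algebra ℂ κ] {n : ℕ}

theorem max_eq (X : Mod L n) (s : L →ₐ[ℂ] κ) :
    maximalIdeal (Germ κ s) = Ideal.span (range (zeta s X.x)) := by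
  obtain ⟨I, hI⟩ : ∃ I, I = Ideal.span (range (zeta s X.x)) := ⟨_, rfl⟩
  have hle : I ≤ maximalIdeal (Germ κ s) :=
    hI ▸ Ideal.span_le.2 (range_subset_iff.2 (zeta_mem X.x))
  rw [← hI]
  refine le_antisymm ?_ hle
  have hnt : Nontrivial (Germ κ s ⧸ I) := Ideal.Quotient.nontrivial_iff.2 fun e =>
    (maximalIdeal.isMaximal (Germ κ s)).ne_top (top_le_iff.1 (e ▸ hle))
  have hloc : IsLocalRing (Germ κ s ⧸ I) :=
    IsLocalRing.of_surjective' (Ideal.Quotient.mk I) Ideal.Quotient.mk_surjective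
  have := charZ L
  have halg := X.tb.isAlgebraic_field
  have hfg : ∀ l, Ideal.Quotient.mk I (algebraMap κ _ (s l)) = Ideal.Quotient.mk I (iota κ s l) :=
    fun l => by
    refine hom_eq_of_alg (Q := Germ κ s ⧸ I)
      ((Ideal.Quotient.mk I).comp ((algebraMap κ _).comp (s : L →+* κ)))
      ((Ideal.Quotient.mk I).comp (iota κ s : L →+* Germ κ s)) (fun c hc => ?_)
      (IntermediateField.adjoin ℂ (range X.x)).toSubfield (fun c hc => ?_) l (halg.1 l)
    · obtain ⟨v, hv⟩ := hc.exists_right_inv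
      obtain ⟨v, rfl⟩ := Ideal.Quotient.mk_surjective v
      have h3 : (algebraMap κ _ (s c) - iota κ s c) * v - 1 ∈ I := by
        rw [← Ideal.Quotient.eq, map_mul, map_sub, map_one]
        exact hv
      have h4 := mem_max.1 (hle h3)
      rw [map_sub, map_mul, map_sub, rho_alg, rho_iota, sub_self, zero_mul, map_one, zero_sub] at h4
      exact one_ne_zero (neg_eq_zero.1 h4)
    · refine RingHom.eqOn_field_closure ?_ hc
      rintro _ (⟨c, rfl⟩ | ⟨j, rfl⟩)
      · refine congrArg (Ideal.Quotient.mk I) ?_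
        change algebraMap κ _ (s (algebraMap ℂ L c)) = iota κ s (algebraMap ℂ L c)
        rw [AlgHom.commutes, AlgHom.commutes, ← IsScalarTower.algebraMap_apply]
      · exact Ideal.Quotient.eq.2 (hI ▸ Ideal.subset_span ⟨j, rfl⟩)
  have key : ∀ a, Ideal.Quotient.mk I (mkG κ s a) =
      Ideal.Quotient.mk I (algebraMap κ _ (ev κ s a)) := fun a => by
    induction a with
    | zero => simp
    | add a b ha hb => simp only [map_add, ha, hb]
    | tmul c x => rw [mkG_tmul, ev_tmul, map_mul, map_mul, map_mul, hfg]; rfl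
  rw [max_eq_map, Ideal.map_le_iff_le_comap]
  intro a ha
  change mkG κ s a ∈ I
  rw [← Ideal.Quotient.eq_zero_iff_mem, key, mem_cen.1 ha, map_zero, map_zero]

theorem exists_tay (X : Mod L n) (s : L →ₐ[ℂ] κ) :
    ∃ δ : Fin n → Derivation ℤ (Germ κ s) (Germ κ s),
      T.Tay (maximalIdeal (Germ κ s)) ⊥ (zeta s X.x) δ := by
  obtain ⟨D, hD⟩ := exists_isD κ s X
  refine ⟨fun a => -D a, unit_succ, by rw [sup_bot_eq, max_eq X s], fun i x hx => ?_,
    fun i j => ?_⟩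
  · rw [Ideal.mem_bot.1 hx, map_zero]
    exact zero_mem _
  · rw [Derivation.neg_apply, zeta, map_sub, hD.const, hD.fn, X.dual]
    split_ifs <;> simp

theorem le_spn (s : L →ₐ[ℂ] κ) (W : Submodule ℂ L) [FiniteDimensional ℂ W] :
    finrank ℂ W ≤ finrank κ (spn κ s W) := by
  have := spn_fd (κ := κ) (σ := s) W
  have := GD.BCa.dom (k := ℂ) (K := κ) (L := L)
  let b := Module.finBasis ℂ W
  have h1 := (GD.BCa.ind_tensor (K := κ)).li (b.linearIndependent.map' W.subtype W.ker_subtype)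
  have h2 := h1.map' (mkG κ s).toLinearMap (LinearMap.ker_eq_bot'.2 fun a ha => by
    obtain ⟨t, h3, h4⟩ := mkG_eq_zero.1 ha
    exact (mul_eq_zero.1 h4).resolve_left fun e => h3 (by rw [e, map_zero]))
  have h3 : LinearIndependent κ fun i => (⟨_, iota_mem (b i).2⟩ : spn κ s W) :=
    LinearIndependent.of_comp (spn κ s W).subtype h2
  simpa using h3.fintype_card_le_finrank

theorem spn_le (s : L →ₐ[ℂ] κ) (W : Submodule ℂ L) [FiniteDimensional ℂ W] :
    finrank κ (spn κ s W) ≤ finrank ℂ W := by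
  let b := Module.finBasis ℂ W
  have h1 : spn κ s W ≤ span κ (range fun i => iota κ s (b i)) := by
    rw [spn, span_le]
    rintro _ ⟨x, hx, rfl⟩
    have h2 := congrArg (fun y : W => iota κ s y) (b.sum_repr ⟨x, hx⟩)
    simp only [AddSubmonoidClass.coe_finsetSum, map_sum, SetLike.val_smul, map_smul] at h2
    rw [← h2]
    exact sum_mem fun i _ => smul_of_tower_mem _ _ (subset_span ⟨i, rfl⟩)
  have := FiniteDimensional.span_of_finite κ (finite_range fun i => iota κ s (b i))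
  refine (finrank_mono h1).trans ?_
  simpa [Set.finrank] using finrank_range_le_card (R := κ) fun i => iota κ s (b i)

/-- Sections of `a D + b H`. -/
abbrev Sc (X : Mod L n) (a b : ℕ) : Submodule ℂ L := Mix.Sec X.P X.H X.q a b

theorem fd_Sc (X : Mod L n) (a b : ℕ) : FiniteDimensional ℂ (Sc X a b) :=
  Mix.fd_Sec (P := X.P) (y := X.y) X.gen X.dim a b

/-- Sections of `j (m D + H)` generate the jets of order less than `M` at `s`. -/
def Onto (X : Mod L n) (s : L →ₐ[ℂ] κ) (m j M : ℕ) : Prop :=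
  ∀ r : Germ κ s, ∃ z ∈ spn κ s (Sc X (m * j) j), r - z ∈ maximalIdeal (Germ κ s) ^ M

theorem spn_pow (X : Mod L n) (s : L →ₐ[ℂ] κ) {m : ℕ} {f : Germ κ s} (hf : f ∈ spn κ s (Sc X m 1))
    (a : ℕ) : f ^ a ∈ spn κ s (Sc X (m * a) a) := by
  induction a with
  | zero => simpa using one_mem_spn (κ := κ) (σ := s) (W := Sc X 0 0) (by
      simpa using Mix.pow_le_Sec (P := X.P) (H := X.H) (q := X.q) 0
        (by rw [pow_zero]; exact Submodule.one_le.1 le_rfl))
  | succ a ih =>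
    rw [pow_succ, mul_add_one]
    exact spn_mul (Mix.Sec_mul _ _ _ _) (mul_mem_mul ih hf)

theorem Onto.count {X : Mod L n} {s : L →ₐ[ℂ] κ} {m j a k : ℕ} (h : Onto X s m j (n * a + 1))
    (hk : a + j ≤ k) : finrank ℂ (Sc X m 1) * a ^ n ≤ finrank ℂ (Sc X (m * k) k) := by
  obtain ⟨δ, T⟩ := exists_tay X s
  obtain ⟨b, rfl⟩ := Nat.exists_eq_add_of_le hk
  have := X.noeth κ s
  have := fd_Sc X m 1
  have := fd_Sc X (m * (a + j + b)) (a + j + b)
  have := spn_fd (κ := κ) (σ := s) (Sc X m 1)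
  have := spn_fd (κ := κ) (σ := s) (Sc X (m * (a + j + b)) (a + j + b))
  have h1 := T4.count (W := spn κ s (Sc X m 1)) (S := spn κ s (Sc X (m * j) j))
    (V := spn κ s (Sc X (m * (a + j + b)) (a + j + b))) (a := a) (b := b) MonomialOrder.lex T
    (maximalIdeal.isMaximal _).ne_top (fun r => ⟨_, sub_rho r⟩) one_ne_zero
    (by rwa [Fintype.card_fin]) fun f hf g hg z hz => by
      rw [mul_one, mul_add, mul_add]
      exact spn_mul (Mix.Sec_mul _ _ _ _) (mul_mem_mul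
        (spn_mul (Mix.Sec_mul _ _ _ _) (mul_mem_mul (spn_pow X s hf a) hz)) (spn_pow X s hg b))
  rw [Fintype.card_fin] at h1
  exact (Nat.mul_le_mul_right _ (le_spn s _)).trans (h1.trans (spn_le s _))

theorem onto_of {X : Mod L n} {s : L →ₐ[ℂ] κ} {W : ℕ → Submodule ℂ L} (hW : Gr fun j => spn κ s (W j))
    {lam : ℝ} {w c : ℕ} (h : Tow (fun j => spn κ s (W j)) (maximalIdeal (Germ κ s)) lam w c)
    {m j M N : ℕ} (hN : lam * M + c ≤ N) {g : L} (hg : g ≠ 0)
    (h1 : span ℂ {g} * W N ≤ Sc X (m * j) j) : Onto X s m j M := by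
  intro r
  obtain ⟨v, hv⟩ := (isUnit_iota (κ := κ) (σ := s) hg).exists_right_inv
  obtain ⟨z, hz, h2⟩ := Ch.span (fun r => ⟨_, sub_rho r⟩) (h.ch_top hW le_rfl hN) (v * r) trivial
  refine ⟨iota κ s g * z, spn_mul h1 (mul_mem_mul (iota_mem (mem_span_singleton_self g)) hz), ?_⟩
  have := Ideal.mul_mem_left _ (iota κ s g) h2
  rwa [mul_sub, ← mul_assoc, hv, one_mul] at this

/-- The rate of generation of jets by multiples of `m D + H` is at least `1 / x`. -/
def Rate (X : Mod L n) (m : ℕ) (x : ℝ) : Prop :=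
  ∃ (κ : Type) (_ : Field κ) (_ : Algebra ℂ κ) (s : L →ₐ[ℂ] κ) (c : ℝ), ∀ M : ℕ, ∃ j : ℕ,
    (j : ℝ) ≤ x * M + c ∧ Onto X s m j M

theorem Rate.vol {X : Mod L n} {m : ℕ} {x ρ : ℝ} (h : Rate X m x) (hx : 0 ≤ x)
    (hρ : 1 + n * x < ρ) : ∀ᶠ k : ℕ in atTop,
      (k : ℝ) ^ n * finrank ℂ (Sc X m 1) ≤ ρ ^ n * finrank ℂ (Sc X (m * k) k) := by
  obtain ⟨κ, _, _, s, c, h⟩ := h
  have h0 : 0 ≤ n * x := by positivity
  have h1 : 0 < ρ := by linarith
  filter_upwards [tendsto_natCast_atTop_atTop.eventually_ge_atTop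
    ((1 + n * x + x + c) * ρ / (ρ - (1 + n * x)))] with k hk
  obtain ⟨j, h2, h3⟩ := h (n * ⌈k / ρ⌉₊ + 1)
  have h4 := Nat.le_ceil (k / ρ)
  have h5 := (Nat.ceil_lt_add_one (by positivity : 0 ≤ k / ρ)).le
  generalize ⌈k / ρ⌉₊ = a at h2 h3 h4 h5
  obtain ⟨t, ht⟩ : ∃ t, t = k / ρ := ⟨_, rfl⟩
  have h6 : (k : ℝ) = ρ * t := by rw [ht, mul_div_cancel₀ _ h1.ne']
  rw [← ht] at h4 h5
  rw [div_le_iff₀ (by linarith), h6, mul_assoc, mul_comm] at hk
  have h7 := le_of_mul_le_mul_left hk h1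
  have h8 : n * x * a ≤ n * x * (t + 1) := mul_le_mul_of_nonneg_left h5 h0
  have h9 : a + j ≤ k := by
    have : ((a + j : ℕ) : ℝ) ≤ k := by
      push_cast at h2 ⊢
      nlinarith
    exact_mod_cast this
  have h10 : (finrank ℂ (Sc X m 1) : ℝ) * a ^ n ≤ finrank ℂ (Sc X (m * k) k) := by
    exact_mod_cast h3.count h9
  have h11 : (k : ℝ) ^ n ≤ (ρ * a) ^ n :=
    pow_le_pow_left₀ k.cast_nonneg (h6 ▸ mul_le_mul_of_nonneg_left h4 h1.le) n
  calc _ ≤ (ρ * a) ^ n * finrank ℂ (Sc X m 1) := by gcongr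
    _ = ρ ^ n * (finrank ℂ (Sc X m 1) * a ^ n) := by ring
    _ ≤ _ := by gcongr

end Pool.Agent.Lib.T4
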