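import Pool.Agent.Lib.T4.Fin

/-! Let `X` be a smooth projective variety, `H` very ample, `B` an effective rational divisor with
`D = r (K + B)` nef. If the number of sections of `m D + H` exceeds the volume by a fixed factor
for large `m`, then curves of degree zero pass through very general points. -/

namespace Pool.Agent.Lib.T4.Kept

open Module Filter Pool.Agent.Lib.GD Pool.Agent.Lib.UR Pool.Agent.Lib.A35 Pool.Agent.Lib.NAK

theorem sectionExcess (L : Type) [Field L] [Algebra ℂ L] (n N q r : ℕ) (hn : 0 < n) (hr : 0 < r)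
    (y : Fin (N + 1) → L) (x : Fin n → L) (d : Fin n → Derivation ℂ L L) (hy : SmoothModel y)
    (h0 : y 0 = 1) (hx : IsTranscendenceBasis ℂ x)
    (hd : ∀ a b, d a (x b) = if a = b then 1 else 0) (τ : Type) [Fintype τ] (p : τ → L)
    (hp : Free y p) (hB : Eff q y p (n + 1) (gaussT d y) 1 r) (hK : NefC q y p) (η : ℝ)
    (hη : 0 < η) (hE : ∀ᶠ m : ℕ in atTop, ∃ᶠ k : ℕ in atTop,
      (1 + η) * finrank ℂ (Sec q y p (m * k) k) < (k : ℝ) ^ n * finrank ℂ (Sec q y p m 1))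
    (g : ℕ → MvPolynomial (Fin (N + 1)) ℂ) (hg : ∀ m, MvPolynomial.aeval y (g m) ≠ 0) :
    ∃ C : Lib.NAK.Crv y p, Gen ℂ C.Y ∧ (∀ m, MvPolynomial.aeval C.Y (g m) ≠ 0) ∧
      ht ℂ C.P = q * ht ℂ C.Y :=
  Lib.T4.fin L n N q r hn hr y x d hy h0 hx hd τ p hp hB hK η hη hE g hg

end Pool.Agent.Lib.T4.Kept
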