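import Pool.Agent.Lib.A35.Tay

/-! Leading exponents in a regular local ring, and a count of products. -/

namespace Pool.Agent.Lib.T4

open MvPolynomial Pool.Agent.Lib.A35.T

variable {k R κ ι : Type} [CommRing k] [CommRing R] [Algebra k R] [Field κ] [Algebra κ R]
  [Fintype ι] [DecidableEq ι] {m : Ideal R} {η : ι → R} {δ : ι → Derivation k R R}
  {o : MonomialOrder ι}

variable (κ o m η) in
/-- `f` has leading exponent `α`. -/
def Ld (f : R) (α : ι →₀ ℕ) : Prop :=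
  ∃ P : MvPolynomial ι κ, P.IsHomogeneous α.degree ∧ P ≠ 0 ∧ o.degree P = α ∧
    f - aeval η P ∈ m ^ (α.degree + 1)

omit [Fintype ι] in
theorem hom_mem (T : Tay m ⊥ η δ) {s : ℕ} {P : MvPolynomial ι κ} (h : P.IsHomogeneous s) :
    aeval η P ∈ m ^ s := T.aeval_mem s P fun _ hα => h.coeff_eq_zero hα.ne

omit [Fintype ι] in
theorem Ld.mem (T : Tay m ⊥ η δ) {f : R} {α : ι →₀ ℕ} (h : Ld κ m η o f α) : f ∈ m ^ α.degree := by
  obtain ⟨P, h1, -, -, h2⟩ := h
  simpa using add_mem (Ideal.pow_le_pow_right (Nat.le_succ _) h2) (hom_mem T h1)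

omit [Fintype ι] in
theorem Ld.mul (T : Tay m ⊥ η δ) {f g : R} {α β : ι →₀ ℕ} (h : Ld κ m η o f α)
    (h' : Ld κ m η o g β) : Ld κ m η o (f * g) (α + β) := by
  have hf := h.mem T
  obtain ⟨P, h1, h2, h3, h4⟩ := h
  obtain ⟨Q, g1, g2, g3, g4⟩ := h'
  refine ⟨P * Q, by rw [map_add]; exact h1.mul g1, mul_ne_zero h2 g2,
    by rw [o.degree_mul h2 g2, h3, g3], ?_⟩
  have e : f * g - aeval η (P * Q) = f * (g - aeval η Q) + (f - aeval η P) * aeval η Q := by
    rw [map_mul]; ring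
  rw [e, map_add]
  refine add_mem ?_ ?_
  · rw [add_assoc, pow_add]
    exact Ideal.mul_mem_mul hf g4
  · rw [add_right_comm, pow_add]
    exact Ideal.mul_mem_mul h4 (hom_mem T g1)

omit [Fintype ι] [DecidableEq ι] in
theorem Ld.mono {f : R} {α : ι →₀ ℕ} {s : ℕ} (hs : α.degree + 1 ≤ s)
    (h : f - aeval η (monomial α (1 : κ)) ∈ m ^ s) : Ld κ m η o f α := by
  classical
  exact ⟨monomial α 1, isHomogeneous_monomial _ rfl, by simp, by simp [o.degree_monomial],
    Ideal.pow_le_pow_right hs h⟩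

omit [Fintype ι] in
theorem Ld.pow (T : Tay m ⊥ η δ) {f : R} {α : ι →₀ ℕ} (h : Ld κ m η o f α) (a : ℕ) :
    Ld κ m η o (f ^ a) (a • α) := by
  induction a with
  | zero => exact Ld.mono le_rfl (by simp)
  | succ a ih =>
    rw [pow_succ, succ_nsmul]
    exact ih.mul T h

theorem Ld.li (T : Tay m ⊥ η δ) (hm : m ≠ ⊤) {σ : Type} {f : σ → R} {α : σ → ι →₀ ℕ}
    (hα : Function.Injective α) (h : ∀ i, Ld κ m η o (f i) (α i)) : LinearIndependent κ f := by
  classical
  refine linearIndependent_iff'.2 fun s g hs i hi => ?_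
  by_contra hne
  obtain ⟨i₁, h1, h2⟩ := (s.filter fun j => g j ≠ 0).exists_min_image (fun j => (α j).degree)
    ⟨i, Finset.mem_filter.2 ⟨hi, hne⟩⟩
  obtain ⟨i₀, h3, h4⟩ := (s.filter fun j => g j ≠ 0 ∧ (α j).degree = (α i₁).degree).exists_max_image
    (fun j => o.toSyn (α j)) ⟨i₁, Finset.mem_filter.2
      ⟨(Finset.mem_filter.1 h1).1, (Finset.mem_filter.1 h1).2, rfl⟩⟩
  obtain ⟨h5, h6, h7⟩ := Finset.mem_filter.1 h3
  have hmem := fun j => (h j).mem T
  choose P p1 p2 p3 p4 using h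
  let Q : σ → MvPolynomial ι κ := fun j => if (α j).degree = (α i₁).degree then g j • P j else 0
  have h8 : ∑ j ∈ s, (g j • f j - aeval η (Q j)) ∈ m ^ ((α i₁).degree + 1) := by
    refine sum_mem fun j hj => ?_
    by_cases e : (α j).degree = (α i₁).degree
    · simp only [Q, if_pos e, map_smul, ← smul_sub]
      rw [← e]
      exact Submodule.smul_of_tower_mem _ _ (p4 j)
    · simp only [Q, if_neg e, map_zero, sub_zero]
      by_cases e' : g j = 0
      · simp [e']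
      · have := h2 j (Finset.mem_filter.2 ⟨hj, e'⟩)
        exact Submodule.smul_of_tower_mem _ _ (Ideal.pow_le_pow_right (by omega) (hmem j))
  rw [Finset.sum_sub_distrib, hs, zero_sub, neg_mem_iff, ← map_sum] at h8
  have h9 := T.coeff_eq_zero hm _ _ (Submodule.mem_sup_left h8) (α i₀) (by omega)
  rw [coeff_sum, Finset.sum_eq_single i₀ (fun j hj e => ?_) fun e => absurd h5 e] at h9
  · simp only [Q, if_pos h7, coeff_smul, smul_eq_mul] at h9
    exact mul_ne_zero h6 (by rw [← p3 i₀]; exact o.coeff_degree_ne_zero_iff.2 (p2 _)) h9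
  · simp only [Q]
    split_ifs with e1
    · by_cases e' : g j = 0
      · simp [e']
      · have := h4 j (Finset.mem_filter.2 ⟨hj, e', e1⟩)
        rw [coeff_smul, o.coeff_eq_zero_of_lt, smul_zero]
        rw [p3]
        exact lt_of_le_of_ne this fun e2 => e (hα (o.toSyn.injective e2))
    · simp

theorem exists_ld [IsNoetherianRing R] [IsLocalRing R] (T : Tay m ⊥ η δ) (hm : m ≠ ⊤)
    (hκ : ∀ r : R, ∃ c : κ, r - algebraMap κ R c ∈ m) {f : R} (hf : f ≠ 0) :
    ∃ α, Ld κ m η o f α := by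
  classical
  have hex : ∃ s, f ∉ m ^ (s + 1) := by
    by_contra hall
    push Not at hall
    apply hf
    rw [← Ideal.mem_bot, ← Ideal.iInf_pow_eq_bot_of_isLocalRing _ hm, Ideal.mem_iInf]
    exact fun s => Ideal.pow_le_pow_right (Nat.le_succ s) (hall s)
  have h1 := Nat.find_spec hex
  have h2 : f ∈ m ^ Nat.find hex := by
    rcases e : Nat.find hex with _ | s
    · simp
    · exact not_not.1 (Nat.find_min hex (by omega))
  generalize Nat.find hex = s at h1 h2
  obtain ⟨P, h3, h4⟩ := T.exists_jet hκ f (s + 1)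
  rw [sup_bot_eq] at h4
  have h5 : aeval η P ∈ m ^ s := by
    simpa using sub_mem h2 (Ideal.pow_le_pow_right (Nat.le_succ s) h4)
  have h6 : ∀ α, coeff α P ≠ 0 → α.degree = s := fun α hα => by
    have a1 := h3 α (mem_support_iff.2 hα)
    have a2 := mt (T.coeff_eq_zero hm P s (Submodule.mem_sup_left h5) α) hα
    omega
  have h7 : P ≠ 0 := fun e => h1 (by simpa [e] using h4)
  have h8 := h6 _ (o.coeff_degree_ne_zero_iff.2 h7)
  refine ⟨o.degree P, P, fun α hα => ?_, h7, rfl, by rwa [h8]⟩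
  rw [h8, ← h6 α hα, Finsupp.degree_eq_weight_one]
  rfl

theorem exists_fun (T : Tay m ⊥ η δ) (hm : m ≠ ⊤)
    (hκ : ∀ r : R, ∃ c : κ, r - algebraMap κ R c ∈ m) (α : ι →₀ ℕ) :
    ∃ c : R →ₗ[κ] κ, ∀ g, Ld κ m η o g α → c g ≠ 0 := by
  obtain ⟨σ, hσ⟩ := LinearMap.exists_rightInverse_of_surjective
    ((Ideal.Quotient.mkₐ κ (m ^ (α.degree + 1) ⊔ ⊥)).comp (aeval η)).toLinearMap
    (LinearMap.range_eq_top.2 (T.surj_jet hκ _))
  refine ⟨lcoeff κ α ∘ₗ σ ∘ₗ (Ideal.Quotient.mkₐ κ _).toLinearMap, ?_⟩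
  rintro g ⟨P, -, h1, h2, h3⟩ h4
  have h5 : Ideal.Quotient.mk _ (aeval η (σ (Ideal.Quotient.mk _ g))) = Ideal.Quotient.mk _ g :=
    LinearMap.congr_fun hσ _
  have h6 := add_mem (Ideal.Quotient.eq.1 h5) (Submodule.mem_sup_left h3)
  rw [sub_add_sub_cancel, ← map_sub] at h6
  have h7 := T.coeff_eq_zero hm _ _ h6 α (Nat.lt_succ_self _)
  rw [coeff_sub, show coeff α (σ (Ideal.Quotient.mk _ g)) = 0 from h4, zero_sub, neg_eq_zero,
    ← h2] at h7
  exact o.coeff_degree_ne_zero_iff.2 h1 h7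

theorem exists_leads [IsNoetherianRing R] [IsLocalRing R] (T : Tay m ⊥ η δ) (hm : m ≠ ⊤)
    (hκ : ∀ r : R, ∃ c : κ, r - algebraMap κ R c ∈ m) (N : ℕ) :
    ∀ (W : Submodule κ R) [FiniteDimensional κ W], N ≤ Module.finrank κ W →
      ∃ (f : Fin N → R) (α : Fin N → ι →₀ ℕ), Function.Injective α ∧
        ∀ i, f i ∈ W ∧ Ld κ m η o (f i) (α i) := by
  induction N with
  | zero => exact fun W _ _ => ⟨Fin.elim0, Fin.elim0, fun i => i.elim0, fun i => i.elim0⟩
  | succ N ih =>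
    intro W _ hW
    obtain ⟨f₀, h0, h1⟩ := Submodule.exists_mem_ne_zero_of_ne_bot (p := W) fun e => by
      rw [e, finrank_bot] at hW
      omega
    obtain ⟨α₀, h2⟩ := exists_ld (o := o) T hm hκ h1
    obtain ⟨c, hc⟩ := exists_fun (o := o) T hm hκ α₀
    have h3 := LinearMap.finrank_range_add_finrank_ker (c.domRestrict W)
    have h4 := Submodule.finrank_le (LinearMap.range (c.domRestrict W))
    rw [Module.finrank_self] at h4
    obtain ⟨f, α, h5, h6⟩ := ih ((LinearMap.ker (c.domRestrict W)).map W.subtype) (by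
      rw [Submodule.finrank_map_subtype_eq]
      omega)
    refine ⟨Fin.cons f₀ f, Fin.cons α₀ α, Fin.cons_injective_iff.2 ⟨?_, h5⟩, fun i => ?_⟩
    · rintro ⟨i, hi⟩
      obtain ⟨⟨x, hx, e⟩, h7⟩ := h6 i
      exact hc _ (hi ▸ h7) (e ▸ hx)
    · refine Fin.cases ⟨h0, h2⟩ (fun i => ⟨?_, (h6 i).2⟩) i
      exact Submodule.map_subtype_le _ _ (h6 i).1

/-- The count. -/
theorem count [IsNoetherianRing R] [IsLocalRing R] (o : MonomialOrder ι) (T : Tay m ⊥ η δ)
    (hm : m ≠ ⊤) (hκ : ∀ r : R, ∃ c : κ, r - algebraMap κ R c ∈ m) {W S V : Submodule κ R}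
    [FiniteDimensional κ W] [FiniteDimensional κ V] {a b : ℕ} {u : R} (hu : u ≠ 0)
    (hS : ∀ r : R, ∃ z ∈ S, r - z ∈ m ^ (Fintype.card ι * a + 1))
    (hV : ∀ f ∈ W, ∀ g ∈ W, ∀ z ∈ S, f ^ a * z * (g ^ b * u) ∈ V) :
    Module.finrank κ W * a ^ Fintype.card ι ≤ Module.finrank κ V := by
  rcases e : Module.finrank κ W with _ | N
  · simp
  obtain ⟨f, α, h1, h2⟩ := exists_leads (o := o) T hm hκ (N + 1) W e.ge
  obtain ⟨γ, h3⟩ := exists_ld (o := o) T hm hκ hu
  let E : (ι → Fin a) → ι →₀ ℕ := fun β => Finsupp.equivFunOnFinite.symm fun i => (β i : ℕ)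
  choose z h4 h5 using fun β => hS (aeval η (monomial (E β) (1 : κ)))
  have h6 : ∀ β, Ld κ m η o (z β) (E β) := fun β => Ld.mono (s := Fintype.card ι * a + 1) (by
    rw [Finsupp.degree_eq_sum]
    exact Nat.succ_le_succ ((Finset.sum_le_card_nsmul _ _ a fun i _ => (β i).2.le).trans_eq
      (by simp))) (by rw [← neg_sub, neg_mem_iff]; exact h5 β)
  have h7 := Ld.li T hm (f := fun x : Fin (N + 1) × (ι → Fin a) =>
    f x.1 ^ a * z x.2 * (f 0 ^ b * u)) (α := fun x => a • α x.1 + E x.2 + (b • α 0 + γ))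
    (fun x y h => ?_) fun x => ((((h2 x.1).2.pow T a).mul T (h6 x.2)).mul T
      (((h2 0).2.pow T b).mul T h3))
  · have h8 : LinearIndependent κ fun x : Fin (N + 1) × (ι → Fin a) =>
        (⟨_, hV _ (h2 x.1).1 _ (h2 0).1 _ (h4 x.2)⟩ : V) := LinearIndependent.of_comp V.subtype h7
    simpa using h8.fintype_card_le_finrank
  · have h8 : ∀ t, a * α x.1 t + x.2 t = a * α y.1 t + y.2 t := fun t => by
      simpa [E] using DFunLike.congr_fun (add_right_cancel h) t
    have h9 : ∀ t, α x.1 t = α y.1 t := fun t => by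
      have := congrArg (· / a) (h8 t)
      simpa [Nat.mul_add_div (x.2 t).pos, Nat.div_eq_of_lt (x.2 t).2,
        Nat.div_eq_of_lt (y.2 t).2] using this
    refine Prod.ext (h1 (Finsupp.ext h9)) (funext fun t => Fin.ext ?_)
    have := h8 t
    rw [h9] at this
    exact add_left_cancel this

end Pool.Agent.Lib.T4
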