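import Pool.Agent.Lib.T4.Jet
import Pool.Agent.Lib.A35.B_SYS
import Pool.Agent.Lib.A35.B_NUM
import Pool.Agent.Lib.A35.B_HIL
import Pool.Agent.Lib.A35.B_PGX
import Pool.Agent.Lib.A35.B_STP
import Pool.Agent.Lib.A35.B_INI
import Pool.Agent.Lib.A35.B_MAIN
import Pool.Agent.Lib.A35.BCH
import Pool.Agent.Lib.NAK.Trf

/-! For a nef class of maximal nef dimension the sections of `m D + H` do not exceed the volume. -/

open Module Submodule Set Filter IsLocalRing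

noncomputable section

namespace Pool.Agent.Lib.T4

open Pool.Agent.Lib.MP_7fcda1_ag Pool.Agent.Lib.UR Pool.Agent.Lib.A35 Pool.Agent.Lib.NAK G

variable {L : Type} [Field L] [Algebra ℂ L] {e : ℕ}

theorem ini (X : Mod L (e + 1)) (hN : X.ND) {k₀ : ℕ → ℕ} (n₀ : (Pt.gp L).Num X e k₀)
    (z₀ : k₀ (e + 1) = 0) (T : ℝ) : X.Has e 0 T := by
  have hd : Dim ℂ (Pt.gp L).K (e + 1) := ⟨X.x, X.tb⟩
  set c := (e + 1) * Mix.pw k₀ e 0 1 1 with hc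
  obtain ⟨m, hm⟩ := exists_nat_gt (|T| ^ (e + 1) * c)
  have m0 : 0 < m := Nat.cast_pos.1 (lt_of_le_of_lt (by positivity) hm)
  obtain ⟨u, u0, ⟨U⟩⟩ := st_SYS L _ X m
  have := Du.essFin U.gen
  obtain ⟨G, φ, -, hp, hf⟩ := st_PGX L ℂ (Pt.gp L) _ hd
  obtain ⟨k, n₁, k1⟩ := st_NUM L _ X _ G.V1 e hN G.dim
  obtain ⟨e₀, h₀⟩ := st_HIL L _ X ℂ (Pt.gp L) e k₀ _ _ U hd n₀
  obtain ⟨e₁, h₁⟩ := st_HIL L _ X _ G.V1 e k _ _ U G.dim n₁
  have a1 : Mix.pw k (e + 1) 0 (u * m) u ≤ Mix.pw k₀ (e + 1) 0 (u * m) u :=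
    INI.asy (E := e₁ + e₀ + (e + 1)) fun j => by
      refine (h₁ j).2.2.trans ((hf _ (h₀ _).1).trans ((h₀ _).2.1.trans_eq ?_))
      simp only [add_assoc]
  have a2 : ∀ k : ℕ → ℕ, Mix.pw k (e + 1) 0 (u * m) u = u ^ (e + 1) * Mix.pw k (e + 1) 0 m 1 :=
    fun k => by rw [← Mix.pw_smul, mul_one]
  rw [a2, a2] at a1
  have a3 : Mix.pw k (e + 1) 0 m 1 ≤ c * m ^ e :=
    (Nat.le_of_mul_le_mul_left a1 (pow_pos u0 _)).trans ((NMB.le z₀ m).trans (by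
      rw [hc, mul_assoc, mul_comm _ (m ^ e)]
      exact Nat.mul_le_mul_left _ (Mix.pw_le k₀ e 0 m0)))
  have f0 : (0 : ℝ) < (Mix.pw k (e + 1) 0 m 1 : ℕ) := by
    exact_mod_cast m0.trans_le (NMB.ge k1 e m)
  set v : ℝ := ((Mix.pw k (e + 1) 0 m 1 : ℕ) : ℝ) ^ (((e + 1 : ℕ) : ℝ)⁻¹) with ev
  have hv : v ^ (e + 1) = (Mix.pw k (e + 1) 0 m 1 : ℕ) :=
    Real.rpow_inv_natCast_pow f0.le e.succ_ne_zero
  have v0 : 0 < v := Real.rpow_pos_of_pos f0 _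
  refine ⟨u, m, U, _, _, _, G, k, 0, v, 0, 0, n₁, k1, u0, m0, le_rfl, ?_, by simp, v0, hv, by simp,
    (mul_le_mul_of_nonneg_right (le_abs_self T) v0.le).trans ?_⟩
  · rw [← hp, INI.gp_max, Ideal.map_bot]
    exact Tow.zero le_rfl
  · refine le_of_pow_le_pow_left₀ e.succ_ne_zero (by positivity) ?_
    rw [mul_pow, hv]
    calc _ ≤ |T| ^ (e + 1) * (c * m ^ e) := by gcongr; exact_mod_cast a3
      _ ≤ m * m ^ e := by rw [← mul_assoc]; gcongr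
      _ = _ := (pow_succ' _ _).symm

theorem sta {n : ℕ} (X : Mod L n) {x : ℝ} (hx : 0 < x) (m₀ : ℕ) (C : ℝ) : ∃ T : ℝ,
    ∀ (u m : ℕ) (U : Sys X (u * m) u) (κ : Type) [Field κ] [Algebra ℂ κ] (d : ℕ)
      (G : PG L κ (d + 1)) (k : ℕ → ℕ) (Λ v lam : ℝ) (w c c' : ℕ), Sta U G k Λ v C T w c →
      Lev (U.S κ G.s) G.p G.m lam (d + 1) c' → u * lam * ((1 - 2 * (1 / 4)) * v) ≤ 1 →
      m₀ ≤ m ∧ Rate X m x := by
  obtain ⟨V, hV, hV'⟩ : ∃ V : ℝ, 1 ≤ V ∧ C + 2 ≤ x * V :=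
    ⟨max 1 ((C + 2) / x), le_max_left _ _, (div_le_iff₀' hx).1 (le_max_right _ _)⟩
  refine ⟨V ^ n + m₀ + 1, fun u m U κ _ _ d G k Λ v lam w c c' S hL hl => ?_⟩
  have h0 := S.vpos
  have h1 : (m : ℝ) ≤ v ^ (d + 1) := by
    rw [S.hv]
    exact_mod_cast NMB.ge S.k1 d m
  have h2 : V ^ n + m₀ + 1 ≤ v ^ d :=
    le_of_mul_le_mul_right (S.hT.trans (h1.trans_eq (pow_succ _ _))) h0
  have h3 : (0 : ℝ) ≤ m₀ := m₀.cast_nonneg
  have h4 : V ≤ v := by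
    by_contra hc
    have a1 : v ^ d ≤ V ^ d := pow_le_pow_left₀ h0.le (not_le.1 hc).le d
    have a2 : V ^ d ≤ V ^ n := pow_le_pow_right₀ hV (by have := S.le; omega)
    linarith
  have h5 : 0 ≤ V ^ n := by positivity
  have h6 : u * (Λ + lam) ≤ x := by
    have := S.hC
    refine le_of_mul_le_mul_right ?_ h0
    nlinarith
  refine ⟨by exact_mod_cast (show (m₀ : ℝ) ≤ m by nlinarith [S.hT]),
    κ, _, _, G.s, u * ((c + c' : ℕ) + 1), fun M => ?_⟩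
  have h7 := S.tow.step hL
  have h8 : 0 ≤ (Λ + lam) * M + (c + c' : ℕ) := by have := h7.nonneg; positivity
  obtain ⟨γ, g0, g1⟩ := U.cls.pow ⌈(Λ + lam) * M + (c + c' : ℕ)⌉₊
  refine ⟨u * ⌈(Λ + lam) * M + (c + c' : ℕ)⌉₊, ?_,
    onto_of (U.gr κ G.s) h7 (Nat.le_ceil _) g0 (mul_le.2 fun a ha b hb => ?_)⟩
  · have a1 := mul_le_mul_of_nonneg_left (Nat.ceil_lt_add_one h8).le (u.cast_nonneg (α := ℝ))
    have a2 := mul_le_mul_of_nonneg_right h6 (M.cast_nonneg (α := ℝ))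
    rw [Nat.cast_mul]
    nlinarith
  · obtain ⟨t, rfl⟩ := mem_span_singleton.1 ha
    rw [smul_mul_assoc, ← mul_assoc m, mul_comm m u]
    exact smul_mem _ _ ((Mix.mem_sec_iff X.H_ne g0 g1 b).2 hb)

theorem rate_zero (X : Mod L (e + 1)) (hN : X.ND) {k₀ : ℕ → ℕ} (n₀ : (Pt.gp L).Num X e k₀)
    (z₀ : k₀ (e + 1) = 0) {x : ℝ} (hx : 0 < x) (m₀ : ℕ) : ∃ m, m₀ ≤ m ∧ Rate X m x := by
  by_contra hb
  obtain ⟨B, hB, hS⟩ := st_STP st_NUM st_HIL st_PGX (e + 1) (1 / 4) (by norm_num) (by norm_num)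
  have key : ∀ (d : ℕ) (C : ℝ), ∃ T, ∀ e' < d, ¬ X.Has e' C T := by
    intro d
    induction d with
    | zero => exact fun C => ⟨0, fun _ h => absurd h (by omega)⟩
    | succ d ih =>
      intro C
      obtain ⟨T₁, h₁⟩ := sta X hx m₀ C
      obtain ⟨T₂, h₂⟩ := ih ((C + 2 * (e + 1 : ℕ) / (1 / 4)) * B)
      refine ⟨max T₁ (T₂ * B), fun e' he' h => ?_⟩
      obtain ⟨u, m, U, κ, _, _, G, k, Λ, v, w, c, S⟩ := h
      rcases hS L X u m U κ e' G k Λ v C _ w c hN S with ⟨lam, c', hL, hl⟩ | ⟨e'', he'', h⟩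
      · exact hb ⟨m, h₁ u m U κ e' G k Λ v lam w c c'
          { S with hT := (mul_le_mul_of_nonneg_right (le_max_left _ _) S.vpos.le).trans S.hT } hL hl⟩
      · exact h₂ e'' (by omega) (MAIN.mono h
          ((le_div_iff₀ (by linarith)).2 (le_max_right _ _)))
  obtain ⟨T, hT⟩ := key (e + 1) 0
  exact hT e (by omega) (ini X hN n₀ z₀ T)

theorem rate_big {n : ℕ} (X : Mod L n) {a : ℕ} {s : L} (ha : 0 < a) (hs : s ≠ 0)
    (h : span ℂ {s} * X.H ≤ Sc X a 0) {x : ℝ} (hx : 0 < x) (m₀ : ℕ) :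
    ∃ m, m₀ ≤ m ∧ Rate X m x := by
  classical
  obtain ⟨g, c, hg, h1⟩ := Mix.den X.gen (sys ℂ X.x)
  replace h1 : span ℂ {g} * sys ℂ X.x ≤ X.H ^ (c + 1) :=
    h1.trans (pow_mono' X.one_mem_H (Nat.le_succ c))
  obtain ⟨t, t1, t2⟩ : ∃ t : ℕ, m₀ < t ∧ 1 ≤ x * t := by
    obtain ⟨t, ht⟩ := exists_nat_gt (1 / x)
    refine ⟨t + m₀ + 1, by omega, ?_⟩
    rw [div_lt_iff₀ hx] at ht
    push_cast
    nlinarith [mul_nonneg hx.le (m₀.cast_nonneg (α := ℝ))]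
  have t0 : 0 < t := by omega
  let σ := AlgHom.id ℂ L
  have hW : Gr fun j => spn L σ (sys ℂ X.x ^ j) :=
    ⟨fun i j _ _ hx hy => spn_mul (pow_add _ i j).ge (mul_mem_mul hx hy),
      fun _ _ h => spn_mono (pow_mono' (one_mem_sys _) h), one_mem_spn (one_mem_pow (one_mem_sys _) 0)⟩
  have h2 : ∀ z ∈ Finset.univ.image (zeta σ X.x), z ∈ spn L σ (sys ℂ X.x ^ 1) := fun z hz => by
    obtain ⟨i, -, rfl⟩ := Finset.mem_image.1 hz
    rw [pow_one, zeta, Algebra.algebraMap_eq_smul_one]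
    exact sub_mem (smul_mem _ _ (one_mem_spn (one_mem_sys _))) (iota_mem (mem_sys _ i))
  have h3 : maximalIdeal (Germ L σ) = Ideal.span ↑(Finset.univ.image (zeta σ X.x)) := by
    rw [max_eq X σ, Finset.coe_image, Finset.coe_univ, image_univ]
  have h4 : Lev (fun j => spn L σ (sys ℂ X.x ^ j)) ⊥ (maximalIdeal (Germ L σ)) 1 _ 1 :=
    ⟨_, _, 1, 1, 1, 1, h2, h2, le_rfl, by rw [bot_sup_eq, ← h3], fun z hz => by
      rw [pow_one, sup_bot_eq, h3]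
      exact Ideal.subset_span hz, by rw [pow_one, sup_bot_eq, ← h3], one_pos, by simp, le_rfl⟩
  refine ⟨a * (c + 1) * t, t1.le.trans (Nat.le_mul_of_pos_left _ (by positivity)),
    L, _, _, σ, 1, fun M => ⟨M / t + 1, ?_, onto_of hW ((Tow.zero (w := 0) (c := 0) le_rfl).step h4)
      (N := t * (M / t + 1)) ?_ (g := s ^ ((c + 1) * (t * (M / t + 1))) * g ^ (t * (M / t + 1)))
      (mul_ne_zero (pow_ne_zero _ hs) (pow_ne_zero _ hg)) ?_⟩⟩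
  · have a1 : ((t * (M / t) : ℕ) : ℝ) ≤ M := by exact_mod_cast Nat.mul_div_le M t
    have a2 := mul_le_mul_of_nonneg_right t2 ((M / t : ℕ).cast_nonneg (α := ℝ))
    have a3 := mul_le_mul_of_nonneg_left a1 hx.le
    push_cast at a3 ⊢
    nlinarith
  · have : M + 1 ≤ t * (M / t + 1) := Nat.lt_mul_div_succ M t0
    exact_mod_cast (by simpa using this)
  · generalize M / t + 1 = j
    have a1 := Mix.sec_pow_le (c := 1) (by rwa [pow_one]) ((c + 1) * (t * j))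
    have a2 := pow_le_pow_left' h1 (t * j)
    rw [mul_pow, span_pow, singleton_pow, ← pow_mul] at a2
    rw [← singleton_mul_singleton, ← span_mul_span, mul_assoc, mul_assoc, mul_assoc]
    rw [one_mul] at a1
    exact (mul_le_mul' le_rfl a2).trans (a1.trans (Mix.Sec_mono X.one_mem_H _ (Nat.zero_le j)))

/-- The bound for a nef class of maximal nef dimension. -/
theorem main (X : Mod L (e + 1)) (hN : X.ND) {η : ℝ} (hη : 0 < η) : ∃ᶠ m : ℕ in atTop,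
    ∀ᶠ k : ℕ in atTop, (k : ℝ) ^ (e + 1) * finrank ℂ (Sc X m 1) ≤
      (1 + η) * finrank ℂ (Sc X (m * k) k) := by
  have h1 : 1 < (1 + η) ^ (((e + 1 : ℕ) : ℝ)⁻¹) := Real.one_lt_rpow (by linarith) (by positivity)
  have h2 : ((1 + η) ^ (((e + 1 : ℕ) : ℝ)⁻¹)) ^ (e + 1) = 1 + η :=
    Real.rpow_inv_natCast_pow (by linarith) e.succ_ne_zero
  generalize (1 + η) ^ (((e + 1 : ℕ) : ℝ)⁻¹) = ρ at h1 h2
  have h3 : 0 < (ρ - 1) / (2 * (e + 1 : ℕ)) := div_pos (by linarith) (by positivity)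
  have h4 : 1 + (e + 1 : ℕ) * ((ρ - 1) / (2 * (e + 1 : ℕ))) < ρ := by
    have : (e + 1 : ℕ) * ((ρ - 1) / (2 * (e + 1 : ℕ))) = (ρ - 1) / 2 := by field_simp
    linarith
  refine frequently_atTop.2 fun m₀ => ?_
  obtain ⟨k₀, n₀, -⟩ := st_NUM L _ X ℂ (Pt.gp L) e hN ⟨X.x, X.tb⟩
  obtain ⟨m, h5, h6⟩ : ∃ m, m₀ ≤ m ∧ Rate X m ((ρ - 1) / (2 * (e + 1 : ℕ))) := by
    rcases Nat.eq_zero_or_pos (k₀ (e + 1)) with z | z
    · exact rate_zero X hN n₀ z h3 m₀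
    · obtain ⟨a, s, ha, hs, h⟩ := Mix.big_of_pos X.p_ne X.gen X.dim X.nefS n₀ z
      exact rate_big X ha hs h h3 m₀
  exact ⟨m, h5, h2 ▸ h6.vol h3.le h4⟩

theorem nd_of {n : ℕ} (X : Mod L n) {g : ℕ → MvPolynomial (Fin (X.N + 1)) ℂ}
    (hg : ∀ m, MvPolynomial.aeval X.y (g m) ≠ 0) (h' : NefC X.q X.y X.p)
    (h : ∀ C : NAK.Crv X.y X.p, Gen ℂ C.Y → (∀ m, MvPolynomial.aeval C.Y (g m) ≠ 0) →
      X.q * ht ℂ C.Y ≠ ht ℂ C.P) : X.ND := by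
  intro κ _ _ V hd
  have := charZ κ
  have : IsFF κ V.K := Dim.isFF
    (Mix.gen_pt (σ := (V.σ : L →+* V.K)) (fun c => ⟨_,
      (V.σ.commutes c).trans (IsScalarTower.algebraMap_apply ℂ κ V.K c)⟩) V.gen X.gen) hd
  obtain ⟨kb, Fb, _, _, _, _, _, _, _, _, _, _, c, hc, -, hg', e⟩ := H91.st_BCH κ V.K
  let : Algebra ℂ kb := ((algebraMap κ kb).comp (algebraMap ℂ κ)).toAlgebra
  let : Algebra ℂ Fb := ((algebraMap κ Fb).comp (algebraMap ℂ κ)).toAlgebra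
  have : IsScalarTower ℂ kb Fb := .of_algebraMap_eq fun x =>
    IsScalarTower.algebraMap_apply κ kb Fb _
  have : IsScalarTower ℂ V.K Fb := .of_algebraMap_eq fun x => by
    rw [IsScalarTower.algebraMap_apply ℂ κ V.K, ← IsScalarTower.algebraMap_apply]
    rfl
  have h2 : (0 : ℤ) < c := by exact_mod_cast hc
  rw [Pt.Dc, Pt.Hc, e, e, mul_left_comm, ← mul_sub]
  refine mul_pos h2 (sub_pos.2 ?_)
  let σ := (IsScalarTower.toAlgHom ℂ V.K Fb).comp V.σ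
  have hσ : Gen kb σ := H91.BCH.gen_up V.gen hg'
  obtain ⟨j, hj⟩ := Function.ne_iff.1 X.p_ne
  have h1 : Gen kb fun l => σ (X.y l) := by
    refine eq_top_iff.2 (hσ.ge.trans (IntermediateField.adjoin_le_iff.2 ?_))
    rintro _ ⟨x, rfl⟩
    have h2 : IntermediateField.adjoin ℂ (range X.y) ≤
        ((IntermediateField.adjoin kb (range fun l => σ (X.y l))).restrictScalars ℂ).comap σ :=
      IntermediateField.adjoin_le_iff.2 (range_subset_iff.2 fun l =>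
        IntermediateField.subset_adjoin kb _ ⟨l, rfl⟩)
    exact h2 (X.gen.ge trivial)
  obtain ⟨C, h2, h3, h4, h5, -⟩ := trf_crv (O := ⊤) (i := 0) (j := j) (fun _ => trivial)
    (fun _ => trivial) (X.y_ne 0) hj (σ.comp (Subalgebra.val ⊤)) h1 g
  have e1 : (fun l => σ.comp (Subalgebra.val ⊤) ⟨X.y l / X.y 0, trivial⟩) = fun l => σ (X.y l) :=
    funext fun l => by simp [X.y0]
  have e2 : (fun l => σ.comp (Subalgebra.val ⊤) ⟨X.p l / X.p j, trivial⟩) =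
      fun l => σ (X.p j)⁻¹ * σ (X.p l) := funext fun l => by simp [div_eq_inv_mul]
  rw [e1] at h2 h4 h5
  rw [e2, M.NORM.ht_mul ((map_ne_zero σ).2 (inv_ne_zero hj))] at h3
  have h7 := (h' C).lt_of_ne (h C (h4 subset_rfl) fun m h7 => hg m (σ.injective
    ((MvPolynomial.comp_aeval_apply _ σ _).trans ((h5 m h7).trans (map_zero σ).symm))))
  rwa [h2, h3] at h7

end Pool.Agent.Lib.T4
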